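import Mathlib

set_option autoImplicit false

namespace Pool.Agent.Results.MP_28ce77_lc.Disproof

open Filter

/-! ### Classes of structures of finite type -/

/-- A finite signature: the lists of arities of its relation symbols and of its function symbols.
A function symbol of arity `0` is a constant symbol. -/
structure Sig where
  rel : List ℕ
  fn : List ℕ

/-- The first-order language of a finite signature. -/
def Sig.lang (s : Sig) : FirstOrder.Language.{0, 0} where
  Functions k := {i : Fin s.fn.length // s.fn.get i = k}
  Relations k := {i : Fin s.rel.length // s.rel.get i = k}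

/-- Structures of the signature `s` whose universe is the `n`-element set `{1, ..., n}`
(written as `Fin n`, the element `i : Fin n` standing for `i + 1`). -/
abbrev Str (s : Sig) (n : ℕ) : Type := s.lang.Structure (Fin n)

/-- A first-order definable class of structures of finite type, given by a finite signature and one
first-order sentence; its members are the finite models of the sentence. -/
structure FOClass where
  sig : Sig
  ax : sig.lang.Sentence

/-- `A` is an `n`-element member of the class `L`. -/
def FOClass.Mem (L : FOClass) {n : ℕ} (A : Str L.sig n) : Prop :=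
  @FirstOrder.Language.Sentence.Realize L.sig.lang (Fin n) A L.ax

/-- Isomorphism of structures. -/
def Iso {s : Sig} {n : ℕ} (A B : Str s n) : Prop :=
  Nonempty (@FirstOrder.Language.Equiv s.lang (Fin n) (Fin n) A B)

theorem Iso.refl {s : Sig} {n : ℕ} (A : Str s n) : Iso A A :=
  ⟨@FirstOrder.Language.Equiv.refl s.lang (Fin n) A⟩

theorem Iso.symm {s : Sig} {n : ℕ} {A B : Str s n} (h : Iso A B) : Iso B A :=
  h.elim fun e => ⟨@FirstOrder.Language.Equiv.symm s.lang (Fin n) (Fin n) A B e⟩

theorem Iso.trans {s : Sig} {n : ℕ} {A B C : Str s n} (h : Iso A B) (h' : Iso B C) : Iso A C :=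
  h.elim fun e => h'.elim fun e' =>
    ⟨@FirstOrder.Language.Equiv.comp s.lang (Fin n) (Fin n) A B (Fin n) C e' e⟩

/-- Isomorphism as an equivalence relation on the `n`-element members of `L`. -/
def FOClass.isoSetoid (L : FOClass) (n : ℕ) : Setoid {A : Str L.sig n // L.Mem A} where
  r A B := Iso A.1 B.1
  iseqv := ⟨fun A => Iso.refl A.1, fun h => h.symm, fun h h' => h.trans h'⟩

/-- `f_L(n)`: the number of isomorphism types of `n`-element members of `L`. -/
noncomputable def FOClass.types (L : FOClass) (n : ℕ) : ℕ :=
  Nat.card (Quotient (L.isoSetoid n))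

/-! ### Inputs: every symbol given by its full table -/

/-- The input alphabet. -/
inductive Sym
  | zero
  | one
  | sep

/-- The binary code of a natural number, followed by a separator. -/
def natCode (v : ℕ) : List Sym :=
  (Nat.bits v).map (fun b => if b then Sym.one else Sym.zero) ++ [Sym.sep]

open Classical in
/-- The full table of the `i`-th relation symbol, one cell for each tuple, and a separator. -/
noncomputable def relTable {s : Sig} {n : ℕ} (A : Str s n) (i : Fin s.rel.length) : List Sym :=
  List.ofFn (fun k : Fin (n ^ s.rel.get i) =>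
    if A.RelMap (⟨i, rfl⟩ : s.lang.Relations (s.rel.get i)) (finFunctionFinEquiv.symm k)
    then Sym.one else Sym.zero) ++ [Sym.sep]

/-- The full table of the `i`-th function symbol, the values `1, ..., n` being written in binary. -/
noncomputable def fnTable {s : Sig} {n : ℕ} (A : Str s n) (i : Fin s.fn.length) : List Sym :=
  (List.ofFn (fun k : Fin (n ^ s.fn.get i) =>
    natCode ((A.funMap (⟨i, rfl⟩ : s.lang.Functions (s.fn.get i))
      (finFunctionFinEquiv.symm k)).val + 1))).flatten ++ [Sym.sep]

/-- The code of a structure: its size in unary, then the full tables of all its symbols. -/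
noncomputable def code {s : Sig} {n : ℕ} (A : Str s n) : List Sym :=
  List.replicate n Sym.one ++ [Sym.sep] ++
    ((List.ofFn (relTable A)).flatten ++ (List.ofFn (fnTable A)).flatten)

/-- The input of an isomorphism testing algorithm: the codes of two structures. -/
noncomputable def pairCode {s : Sig} {n : ℕ} (A B : Str s n) : List Sym := code A ++ code B

/-! ### Models of computation, isomorphism testing algorithms, and the assertion of Q1 -/

/-- A model of deterministic computation: a type of algorithms, and the relation
`Halts γ w b t`: on the input word `w` the algorithm `γ` halts with answer `b` after exactly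
`t` steps. -/
structure Model where
  Alg : Type 1
  Halts : Alg → List Sym → Bool → ℕ → Prop
  det : ∀ γ w b t b' t', Halts γ w b t → Halts γ w b' t' → b = b' ∧ t = t'

/-- `γ` is an isomorphism testing algorithm for `L`: it halts on every pair of `n`-element members
of `L` and says whether they are isomorphic. -/
def IsTest (M : Model) (L : FOClass) (γ : M.Alg) : Prop :=
  ∀ (n : ℕ) (A B : Str L.sig n), L.Mem A → L.Mem B →
    ∃ b t, M.Halts γ (pairCode A B) b t ∧ (b = true ↔ Iso A B)

/-- `m_L(γ, n)`: the largest number of steps `γ` uses on any pair of `n`-element members of `L`. -/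
noncomputable def maxSteps (M : Model) (L : FOClass) (γ : M.Alg) (n : ℕ) : ℕ :=
  sSup {t | ∃ A B : Str L.sig n, L.Mem A ∧ L.Mem B ∧ ∃ b, M.Halts γ (pairCode A B) b t}

/-- The assertion of Q1, for the model of computation `M`. -/
def Assertion (M : Model) : Prop :=
  ∀ (J K : FOClass) (q : Polynomial ℕ), (∀ n, J.types n ≤ q.eval (K.types n)) →
    ∃ p : Polynomial ℝ, ∀ α : M.Alg, IsTest M K α →
      ∃ β : M.Alg, IsTest M J β ∧
        ∀ᶠ n in atTop, (maxSteps M J β n : ℝ) ≤ p.eval (maxSteps M K α n : ℝ)

/-- The two properties of standard models of computation that are used: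
some algorithm accepts every input within a bounded number of steps; and, for inputs of length `N`,
an algorithm inspects only `o(N)` input cells in a bounded number of steps. -/
structure Model.Standard (M : Model) : Prop where
  accept : ∃ (γ : M.Alg) (T : ℕ), ∀ w, ∃ t ≤ T, M.Halts γ w true t
  inspect : ∀ (γ : M.Alg) (T c : ℕ), ∀ᶠ N in atTop, ∀ w : List Sym, w.length = N →
    ∀ b, ∀ t ≤ T, M.Halts γ w b t → ∃ S : Finset ℕ, c * S.card ≤ N ∧
      ∀ w' : List Sym, w'.length = N → (∀ i ∈ S, w'[i]? = w[i]?) → ∃ t', M.Halts γ w' b t'

/-- Running a transition system: starting in `c`, the answer `b` is given after exactly `t` steps. -/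
def HaltsWith {C : Type*} (answer : C → Option Bool) (next : C → C) (c : C) (b : Bool) (t : ℕ) :
    Prop :=
  answer (next^[t] c) = some b ∧ ∀ s < t, answer (next^[s] c) = none

theorem HaltsWith.det {C : Type*} {answer : C → Option Bool} {next : C → C} {c : C}
    {b b' : Bool} {t t' : ℕ} (h : HaltsWith answer next c b t) (h' : HaltsWith answer next c b' t') :
    b = b' ∧ t = t' := by
  rcases lt_trichotomy t t' with hlt | heq | hgt
  · have := h'.2 t hlt
    rw [h.1] at this
    exact absurd this (by simp)
  · subst heq
    have := h.1.symm.trans h'.1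
    exact ⟨by simpa using this, rfl⟩
  · have := h.2 t' hgt
    rw [h'.1] at this
    exact absurd this (by simp)

/-! ### Multitape Turing machines -/

/-- Head moves. -/
inductive Dir
  | left
  | stay
  | right

/-- The shift of the head position made by a move. -/
def Dir.shift : Dir → ℤ
  | .left => -1
  | .stay => 0
  | .right => 1

/-- A deterministic Turing machine with `k + 1` two-way infinite tapes, a finite tape alphabet `Γ`
and a finite state set `Q`. The blank is `letter none`. In state `q`, reading `a`, the machine
halts with answer `b` if `δ q a = inl b`; otherwise it changes state, writes on and moves each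
tape. -/
structure TM : Type 1 where
  k : ℕ
  Γ : Type
  finΓ : Finite Γ
  Q : Type
  finQ : Finite Q
  letter : Option Sym ↪ Γ
  start : Q
  δ : Q → (Fin (k + 1) → Γ) → Bool ⊕ (Q × (Fin (k + 1) → Γ) × (Fin (k + 1) → Dir))

/-- Configurations of a Turing machine. -/
structure TM.Cfg (M : TM) where
  q : M.Q
  head : Fin (M.k + 1) → ℤ
  tape : Fin (M.k + 1) → ℤ → M.Γ

/-- The scanned symbols. -/
def TM.Cfg.scan {M : TM} (c : M.Cfg) : Fin (M.k + 1) → M.Γ := fun i => c.tape i (c.head i)

/-- The answer, if the machine halts in the configuration `c`. -/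
def TM.answer (M : TM) (c : M.Cfg) : Option Bool :=
  match M.δ c.q c.scan with
  | .inl b => some b
  | .inr _ => none

/-- One step of the machine. -/
def TM.next (M : TM) (c : M.Cfg) : M.Cfg :=
  match M.δ c.q c.scan with
  | .inl _ => c
  | .inr r =>
    { q := r.1
      head := fun i => c.head i + (r.2.2 i).shift
      tape := fun i z => if z = c.head i then r.2.1 i else c.tape i z }

/-- The initial configuration: the input word is on tape `0`, on the cells `0, 1, 2, ...`. -/
def TM.init (M : TM) (w : List Sym) : M.Cfg where
  q := M.start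
  head := fun _ => 0
  tape := fun i z => if i = 0 ∧ 0 ≤ z then M.letter w[z.toNat]? else M.letter none

/-- Deterministic multitape Turing machines as a model of computation. -/
def turing : Model where
  Alg := TM
  Halts M w b t := HaltsWith M.answer M.next (M.init w) b t
  det _ _ _ _ _ _ h h' := h.det h'

/-! ### Random access machines -/

/-- Instructions of a random access machine with registers `R 0, R 1, ...` holding natural
numbers. -/
inductive Instr
  /-- `R i := c` -/
  | const (i c : ℕ)
  /-- `R i := R j + R k` -/
  | add (i j k : ℕ)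
  /-- `R i := R j - R k` -/
  | sub (i j k : ℕ)
  /-- `R i := R j * R k` -/
  | mul (i j k : ℕ)
  /-- `R i := R j / R k` -/
  | div (i j k : ℕ)
  /-- `R i := R (R j)` -/
  | load (i j : ℕ)
  /-- `R (R i) := R j` -/
  | store (i j : ℕ)
  /-- `R i :=` the length of the input word -/
  | len (i : ℕ)
  /-- `R i :=` the input cell with index `R j` -/
  | read (i j : ℕ)
  /-- if `R i = 0` then continue with instruction number `l` -/
  | jump (i l : ℕ)
  /-- halt with answer `b` -/
  | halt (b : Bool)

/-- Configurations of a random access machine: the instruction counter and the registers. -/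
structure RAMCfg where
  pc : ℕ
  R : ℕ → ℕ

/-- The content of an input cell as a number, `0` beyond the end of the input. -/
def cellVal : Option Sym → ℕ
  | none => 0
  | some .zero => 1
  | some .one => 2
  | some .sep => 3

/-- The answer of the program `P` in the configuration `c`, if it halts there; running beyond the
end of the program counts as the answer `false`. -/
def ramAnswer (P : List Instr) (c : RAMCfg) : Option Bool :=
  match P[c.pc]? with
  | none => some false
  | some (.halt b) => some b
  | some _ => none

/-- One step of the program `P` on the input word `w`. -/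
def ramNext (P : List Instr) (w : List Sym) (c : RAMCfg) : RAMCfg :=
  match P[c.pc]? with
  | none => c
  | some (.const i v) => ⟨c.pc + 1, Function.update c.R i v⟩
  | some (.add i j k) => ⟨c.pc + 1, Function.update c.R i (c.R j + c.R k)⟩
  | some (.sub i j k) => ⟨c.pc + 1, Function.update c.R i (c.R j - c.R k)⟩
  | some (.mul i j k) => ⟨c.pc + 1, Function.update c.R i (c.R j * c.R k)⟩
  | some (.div i j k) => ⟨c.pc + 1, Function.update c.R i (c.R j / c.R k)⟩
  | some (.load i j) => ⟨c.pc + 1, Function.update c.R i (c.R (c.R j))⟩
  | some (.store i j) => ⟨c.pc + 1, Function.update c.R (c.R i) (c.R j)⟩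
  | some (.len i) => ⟨c.pc + 1, Function.update c.R i w.length⟩
  | some (.read i j) => ⟨c.pc + 1, Function.update c.R i (cellVal w[c.R j]?)⟩
  | some (.jump i l) => ⟨if c.R i = 0 then l else c.pc + 1, c.R⟩
  | some (.halt _) => c

/-- Random access machines with unit cost as a model of computation. -/
def ram : Model where
  Alg := ULift.{1} (List Instr)
  Halts P w b t := HaltsWith (ramAnswer P.down) (ramNext P.down w) ⟨0, fun _ => 0⟩ b t
  det _ _ _ _ _ _ h h' := h.det h'


/-! ### Sanity checks -/

/-- There are finitely many structures on an `n`-element universe. -/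
theorem finite_str (s : Sig) (n : ℕ) : Finite (Str s n) := by
  let F : Str s n →
      ((i : Fin s.fn.length) → (Fin (s.fn.get i) → Fin n) → Fin n) ×
      ((i : Fin s.rel.length) → (Fin (s.rel.get i) → Fin n) → Prop) := fun A =>
    (fun i x => A.funMap (⟨i, rfl⟩ : s.lang.Functions (s.fn.get i)) x,
     fun i x => A.RelMap (⟨i, rfl⟩ : s.lang.Relations (s.rel.get i)) x)
  refine Finite.of_injective F ?_
  intro A B h
  have h1 := congrArg Prod.fst h
  have h2 := congrArg Prod.snd h
  ext k f x
  · obtain ⟨i, rfl⟩ := f
    have := congrFun (congrFun h1 i) x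
    exact congrArg Fin.val this
  · obtain ⟨i, rfl⟩ := f
    have := congrFun (congrFun h2 i) x
    exact iff_of_eq this

/-- The set of running times in the definition of `maxSteps` is finite, hence bounded. -/
theorem bddAbove_steps (M : Model) (L : FOClass) (γ : M.Alg) (n : ℕ) :
    BddAbove {t | ∃ A B : Str L.sig n, L.Mem A ∧ L.Mem B ∧ ∃ b, M.Halts γ (pairCode A B) b t} := by
  have := finite_str L.sig n
  have hfin : Set.Finite {t | ∃ A B : Str L.sig n, L.Mem A ∧ L.Mem B ∧
      ∃ b, M.Halts γ (pairCode A B) b t} := by
    have hsub : {t | ∃ A B : Str L.sig n, L.Mem A ∧ L.Mem B ∧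
        ∃ b, M.Halts γ (pairCode A B) b t} ⊆
        ⋃ A : Str L.sig n, ⋃ B : Str L.sig n, {t | ∃ b, M.Halts γ (pairCode A B) b t} := by
      rintro t ⟨A, B, -, -, hb⟩
      exact Set.mem_iUnion.2 ⟨A, Set.mem_iUnion.2 ⟨B, hb⟩⟩
    refine Set.Finite.subset ?_ hsub
    refine Set.finite_iUnion fun A => Set.finite_iUnion fun B => ?_
    refine Set.Subsingleton.finite ?_
    rintro t ⟨b, h⟩ t' ⟨b', h'⟩
    exact (M.det _ _ _ _ _ _ h h').2
  exact hfin.bddAbove

/-- `maxSteps` bounds the number of steps on each pair of `n`-element members. -/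
theorem le_maxSteps (M : Model) (L : FOClass) (γ : M.Alg) (n : ℕ) (A B : Str L.sig n)
    (hA : L.Mem A) (hB : L.Mem B) (b : Bool) (t : ℕ) (h : M.Halts γ (pairCode A B) b t) :
    t ≤ maxSteps M L γ n :=
  le_csSup (bddAbove_steps M L γ n) ⟨A, B, hA, hB, b, h⟩


/-! ### The two classes -/

/-- The class of all finite sets (structures without symbols). -/
def K : FOClass where
  sig := ⟨[], []⟩
  ax := ⊤

/-- The signature with one unary relation symbol. -/
def sigP : Sig := ⟨[1], []⟩

/-- The unary relation symbol. -/
def symP : sigP.lang.Relations 1 := ⟨(0 : Fin 1), rfl⟩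

open FirstOrder FirstOrder.Language in
/-- The class of all finite sets with a unary relation holding of at most one element. -/
def J : FOClass where
  sig := sigP
  ax := ∀' ∀' ((symP.boundedFormula₁ (&0) ⊓ symP.boundedFormula₁ (&1)) ⟹ (&0 =' &1))

/-- The relation of a structure of signature `sigP`. -/
def pred {n : ℕ} (A : Str sigP n) (x : Fin n) : Prop := A.RelMap symP ![x]

theorem mem_J {n : ℕ} (A : Str sigP n) : J.Mem A ↔ ∀ x y, pred A x → pred A y → x = y := by
  simp only [FOClass.Mem, J, pred]
  simp [FirstOrder.Language.Sentence.Realize, FirstOrder.Language.Formula.Realize,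
    FirstOrder.Language.BoundedFormula.realize_all, Fin.snoc,
    FirstOrder.Language.BoundedFormula.realize_rel₁]


theorem K_types (n : ℕ) : K.types n = 1 := by
  have hone : ∀ A B : Str K.sig n, A = B := by
    intro A B
    ext k f x
    · exact Fin.elim0 (f : {i : Fin 0 // _}).1
    · exact Fin.elim0 (f : {i : Fin 0 // _}).1
  unfold FOClass.types
  rw [Nat.card_eq_one_iff_unique]
  refine ⟨⟨?_⟩, ?_⟩
  · intro a b
    induction a using Quotient.inductionOn with | _ a =>
    induction b using Quotient.inductionOn with | _ b =>
    have : a = b := Subtype.ext (hone _ _)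
    rw [this]
  · let A : Str K.sig n :=
      { funMap := fun {k} f _ => Fin.elim0 (f : {i : Fin 0 // _}).1
        RelMap := fun {k} f _ => Fin.elim0 (f : {i : Fin 0 // _}).1 }
    refine ⟨Quotient.mk _ ⟨A, ?_⟩⟩
    exact (@FirstOrder.Language.BoundedFormula.realize_top _ _ A _ _ _ _).2 trivial

/-- The structure in which the relation holds exactly of the elements of `X`. -/
@[reducible] def mkP {n : ℕ} (X : Fin n → Prop) : Str sigP n where
  funMap := fun f _ => Fin.elim0 (f : {_i : Fin 0 // _}).1
  RelMap := fun {k} _ x => ∃ i : Fin k, X (x i)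

theorem pred_mkP {n : ℕ} (X : Fin n → Prop) (x : Fin n) : pred (mkP X) x ↔ X x := by
  unfold pred mkP
  simp

theorem iso_iff {n : ℕ} (A B : Str sigP n) :
    Iso A B ↔ ∃ e : Fin n ≃ Fin n, ∀ x, pred B (e x) ↔ pred A x := by
  constructor
  · rintro ⟨e⟩
    refine ⟨@FirstOrder.Language.Equiv.toEquiv _ _ _ A B e, fun x => ?_⟩
    have := @FirstOrder.Language.Equiv.map_rel' _ _ _ A B e _ symP ![x]
    unfold pred
    rw [← this]
    apply iff_of_eq
    congr 1
    ext i
    fin_cases i
    rfl
  · rintro ⟨e, he⟩
    refine ⟨@FirstOrder.Language.Equiv.mk _ _ _ A B e ?_ ?_⟩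
    · intro k f
      exact Fin.elim0 (f : {i : Fin 0 // _}).1
    · intro k r x
      obtain ⟨i, hi⟩ := r
      have hi0 : i = (0 : Fin 1) := Subsingleton.elim (α := Fin 1) _ _
      subst hi0
      have hk : k = 1 := hi.symm
      subst hk
      have := he (x 0)
      unfold pred at this
      have h1 : x = ![x 0] := by
        ext i; fin_cases i; rfl
      have h2 : (e.toFun ∘ x) = ![e (x 0)] := by
        ext i; fin_cases i; rfl
      rw [h2]
      rw [h1]
      exact this

/-- Two members of `J` are isomorphic iff the relation is nonempty in both or empty in both. -/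
theorem iso_iff_of_mem {n : ℕ} (A B : Str sigP n) (hA : J.Mem A) (hB : J.Mem B) :
    Iso A B ↔ ((∃ x, pred A x) ↔ ∃ x, pred B x) := by
  classical
  constructor
  · intro h
    obtain ⟨e, he⟩ := (iso_iff A B).1 h
    constructor
    · rintro ⟨x, hx⟩
      exact ⟨e x, (he x).2 hx⟩
    · rintro ⟨x, hx⟩
      refine ⟨e.symm x, (he _).1 ?_⟩
      simpa using hx
  · intro h'
    refine (iso_iff A B).2 ?_
    replace hA := (mem_J A).1 hA
    replace hB := (mem_J B).1 hB
    by_cases hx : ∃ x, pred A x
    · obtain ⟨y, hy⟩ := h'.1 hx
      obtain ⟨x, hx⟩ := hx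
      refine ⟨Equiv.swap x y, fun z => ?_⟩
      constructor
      · intro hz
        have := hB _ _ hz hy
        rw [Equiv.swap_apply_eq_iff, Equiv.swap_apply_right] at this
        rw [this]
        exact hx
      · intro hz
        have := hA _ _ hz hx
        rw [this, Equiv.swap_apply_left]
        exact hy
    · refine ⟨Equiv.refl _, fun z => ?_⟩
      have h1 : ¬ pred A z := fun h => hx ⟨z, h⟩
      have h2 : ¬ pred B z := fun h => hx (h'.2 ⟨z, h⟩)
      simp [h1, h2]

theorem J_types (n : ℕ) : J.types n ≤ 2 := by
  classical
  unfold FOClass.types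
  let F : Quotient (J.isoSetoid n) → Bool := Quotient.lift
    (fun A : {A : Str J.sig n // J.Mem A} => decide (∃ x, pred A.1 x)) (by
      rintro ⟨A, hA⟩ ⟨B, hB⟩ h
      simp only [decide_eq_decide]
      exact (iso_iff_of_mem A B hA hB).1 h)
  have hF : Function.Injective F := by
    intro a b
    induction a using Quotient.inductionOn with | _ a =>
    induction b using Quotient.inductionOn with | _ b =>
    obtain ⟨A, hA⟩ := a
    obtain ⟨B, hB⟩ := b
    intro h
    refine Quotient.sound ?_
    have h' : decide (∃ x, pred A x) = decide (∃ x, pred B x) := h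
    rw [decide_eq_decide] at h'
    exact (iso_iff_of_mem A B hA hB).2 h'
  calc Nat.card (Quotient (J.isoSetoid n)) ≤ Nat.card Bool := Nat.card_le_card_of_injective F hF
    _ = 2 := by simp

open Classical in
/-- The code of a structure of signature `sigP`. -/
theorem code_eq {n : ℕ} (A : Str sigP n) :
    code A = List.replicate n Sym.one ++ [Sym.sep] ++
      (List.ofFn (fun k : Fin (n ^ 1) =>
        if pred A (finFunctionFinEquiv.symm k 0) then Sym.one else Sym.zero) ++ [Sym.sep]) := by
  have h1 : (List.ofFn (relTable A)).flatten = List.ofFn (fun k : Fin (n ^ 1) =>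
        if pred A (finFunctionFinEquiv.symm k 0) then Sym.one else Sym.zero) ++ [Sym.sep] := by
    have : List.ofFn (relTable A) = [relTable A (0 : Fin 1)] := by
      exact List.ofFn_succ (n := 0)
    rw [this]
    simp only [List.flatten_cons, List.flatten_nil, List.append_nil]
    unfold relTable
    congr 2
    ext k
    unfold pred
    congr 2
    ext i
    fin_cases i
    rfl
  have h2 : (List.ofFn (fnTable A)).flatten = [] := by
    have : List.ofFn (fnTable A) = [] := by
      exact List.ofFn_zero
    rw [this]
    rfl
  unfold code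
  rw [h1, h2]
  simp


theorem length_code {n : ℕ} (A : Str sigP n) : (code A).length = 2 * n + 2 := by
  classical
  rw [code_eq]
  simp only [List.length_append, List.length_replicate, List.length_ofFn, List.length_cons,
    List.length_nil, pow_one]
  ring

/-- Changing the relation at one element changes only one cell of the code. -/
theorem getElem?_code {n : ℕ} (A B : Str sigP n) (k : Fin (n ^ 1))
    (h : ∀ k' : Fin (n ^ 1), k' ≠ k →
      (pred A (finFunctionFinEquiv.symm k' 0) ↔ pred B (finFunctionFinEquiv.symm k' 0)))
    (i : ℕ) (hi : i ≠ n + 1 + k) : (code A)[i]? = (code B)[i]? := by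
  classical
  rw [code_eq, code_eq]
  have hlen : (List.replicate n Sym.one ++ [Sym.sep]).length = n + 1 := by simp
  generalize (List.replicate n Sym.one ++ [Sym.sep]) = pre at hlen
  rw [List.getElem?_append (l₁ := pre), List.getElem?_append (l₁ := pre), hlen]
  by_cases h1 : i < n + 1
  · rw [if_pos h1, if_pos h1]
  · rw [if_neg h1, if_neg h1]
    rw [List.getElem?_append, List.getElem?_append]
    simp only [List.length_ofFn]
    by_cases h2 : i - (n + 1) < n ^ 1
    · rw [if_pos h2, if_pos h2, List.getElem?_ofFn, List.getElem?_ofFn, dif_pos h2, dif_pos h2]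
      have hne : (⟨i - (n + 1), h2⟩ : Fin (n ^ 1)) ≠ k := by
        intro hc
        apply hi
        have := congrArg Fin.val hc
        simp only at this
        omega
      have := h _ hne
      simp only [this]
    · rw [if_neg h2, if_neg h2]

theorem getElem?_pairCode {n : ℕ} (A B C : Str sigP n) (k : Fin (n ^ 1))
    (h : ∀ k' : Fin (n ^ 1), k' ≠ k →
      (pred A (finFunctionFinEquiv.symm k' 0) ↔ pred B (finFunctionFinEquiv.symm k' 0)))
    (i : ℕ) (hi : i ≠ n + 1 + k) : (pairCode A C)[i]? = (pairCode B C)[i]? := by
  unfold pairCode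
  rw [List.getElem?_append, List.getElem?_append, length_code, length_code]
  split_ifs
  · exact getElem?_code A B k h i hi
  · rfl

theorem length_pairCode {n : ℕ} (A B : Str sigP n) : (pairCode A B).length = 4 * n + 4 := by
  unfold pairCode
  rw [List.length_append, length_code, length_code]
  ring

/-- In a standard model every isomorphism testing algorithm for `J` needs an unbounded number of
steps. -/
theorem J_steps (M : Model) (hM : M.Standard) (β : M.Alg) (hβ : IsTest M J β) (T : ℕ) :
    ∀ᶠ n in atTop, T < maxSteps M J β n := by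
  have hloc := hM.inspect β T 8
  have hlim : Tendsto (fun n : ℕ => 4 * n + 4) atTop atTop :=
    tendsto_atTop_mono (fun n => by show n ≤ 4 * n + 4; omega) tendsto_id
  filter_upwards [hlim.eventually hloc, eventually_ge_atTop 2] with n hn hn2
  by_contra hcon
  push Not at hcon
  let E : Str sigP n := mkP fun _ => False
  have hE : J.Mem E := by
    rw [mem_J]
    intro x y hx
    exact absurd ((pred_mkP _ _).1 hx) id
  obtain ⟨b, t, hbt, hb⟩ := hβ n E E hE hE
  have hbtrue : b = true := hb.2 (Iso.refl E)
  subst hbtrue
  have ht : t ≤ T := (le_maxSteps M J β n E E hE hE _ _ hbt).trans hcon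
  obtain ⟨S, hS, hagree⟩ := hn (pairCode E E) (length_pairCode E E) true t ht hbt
  have hk : ∃ k : Fin (n ^ 1), n + 1 + (k : ℕ) ∉ S := by
    by_contra hall
    push Not at hall
    have hcard : (Finset.univ.map ⟨fun k : Fin (n ^ 1) => n + 1 + (k : ℕ), fun a b h => by
        simp only at h
        exact Fin.ext (by omega)⟩) ⊆ S := by
      intro x hx
      simp only [Finset.mem_map, Finset.mem_univ, true_and] at hx
      obtain ⟨k, rfl⟩ := hx
      exact hall k
    have := Finset.card_le_card hcard
    simp only [Finset.card_map, Finset.card_univ, Fintype.card_fin, pow_one] at this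
    omega
  obtain ⟨k, hk⟩ := hk
  let A : Str sigP n := mkP fun x => x = finFunctionFinEquiv.symm k 0
  have hA : J.Mem A := by
    rw [mem_J]
    intro x y hx hy
    rw [(pred_mkP _ _).1 hx, (pred_mkP _ _).1 hy]
  have hcode : ∀ i ∈ S, (pairCode A E)[i]? = (pairCode E E)[i]? := by
    intro i hi
    refine getElem?_pairCode A E E k ?_ i (fun h => hk (h ▸ hi))
    intro k' hk'
    rw [pred_mkP, pred_mkP, iff_false]
    intro h
    apply hk'
    have h2 : finFunctionFinEquiv.symm k' = finFunctionFinEquiv.symm k := by
      funext j
      have : j = 0 := Subsingleton.elim _ _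
      rw [this]
      exact h
    exact finFunctionFinEquiv.symm.injective h2
  obtain ⟨t', ht'⟩ := hagree (pairCode A E) (length_pairCode A E) hcode
  obtain ⟨b'', t'', hbt'', hb''⟩ := hβ n A E hA hE
  have hbb := (M.det _ _ _ _ _ _ ht' hbt'').1
  have hiso : Iso A E := hb''.1 hbb.symm
  obtain ⟨e, he⟩ := (iso_iff A E).1 hiso
  have h1 := (he (finFunctionFinEquiv.symm k 0)).2 ((pred_mkP _ _).2 rfl)
  exact (pred_mkP _ _).1 h1

/-- In a standard model some isomorphism testing algorithm for `K` runs in bounded time. -/
theorem K_steps (M : Model) (hM : M.Standard) :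
    ∃ α : M.Alg, IsTest M K α ∧ ∃ T, ∀ n, maxSteps M K α n ≤ T := by
  obtain ⟨γ, T, hγ⟩ := hM.accept
  refine ⟨γ, ?_, T, ?_⟩
  · intro n A B _ _
    obtain ⟨t, _, ht⟩ := hγ (pairCode A B)
    refine ⟨true, t, ht, ?_⟩
    have : A = B := by
      ext k f x
      · exact Fin.elim0 (f : {i : Fin 0 // _}).1
      · exact Fin.elim0 (f : {i : Fin 0 // _}).1
    subst this
    simp [Iso.refl]
  · intro n
    refine csSup_le' ?_
    rintro t ⟨A, B, _, _, b, h⟩
    obtain ⟨t', ht', h'⟩ := hγ (pairCode A B)
    rw [(M.det _ _ _ _ _ _ h h').2]
    exact ht'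

theorem not_assertion (M : Model) (hM : M.Standard) : ¬ Assertion M := by
  intro h
  obtain ⟨p, hp⟩ := h J K (Polynomial.C 2) (fun n => by
    rw [Polynomial.eval_C]
    exact J_types n)
  obtain ⟨α, hα, T, hT⟩ := K_steps M hM
  obtain ⟨β, hβ, hev⟩ := hp α hα
  obtain ⟨B, hB⟩ : ∃ B : ℕ, ∀ m ≤ T, p.eval (m : ℝ) ≤ B := by
    have hfin : Set.Finite ((fun m : ℕ => p.eval (m : ℝ)) '' Set.Iic T) :=
      (Set.finite_Iic T).image _
    obtain ⟨C, hC⟩ := hfin.bddAbove
    obtain ⟨B, hB⟩ := exists_nat_ge C
    exact ⟨B, fun m hm => (hC ⟨m, hm, rfl⟩).trans hB⟩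
  obtain ⟨n, hn1, hn2⟩ := (hev.and (J_steps M hM β hβ B)).exists
  have h1 := hB _ (hT n)
  have h2 : (B : ℝ) < (maxSteps M J β n : ℝ) := by exact_mod_cast hn2
  linarith

/-! ### Multitape Turing machines and random access machines are standard models -/

theorem turing_accept : ∃ (γ : TM) (T : ℕ), ∀ w, ∃ t ≤ T, turing.Halts γ w true t := by
  refine ⟨{ k := 0, Γ := Option Sym, finΓ := ?_, Q := Unit, finQ := inferInstance,
            letter := Function.Embedding.refl _, start := (), δ := fun _ _ => .inl true }, 0, ?_⟩
  · have : Finite Sym := by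
      refine Finite.of_surjective (fun i : Fin 3 => ![Sym.zero, Sym.one, Sym.sep] i) ?_
      intro s
      cases s
      · exact ⟨0, rfl⟩
      · exact ⟨1, rfl⟩
      · exact ⟨2, rfl⟩
    infer_instance
  · intro w
    refine ⟨0, le_refl 0, rfl, ?_⟩
    intro s hs
    exact absurd hs (Nat.not_lt_zero s)


/-- Two configurations agree, up to cells with index larger than `T`, and the heads have index at
most `j`. -/
def Sim (M : TM) (T j : ℕ) (c c' : M.Cfg) : Prop :=
  c.q = c'.q ∧ c.head = c'.head ∧ (∀ i, c.head i ≤ j) ∧
    ∀ i (z : ℤ), z ≤ T → c.tape i z = c'.tape i z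

theorem Sim.scan {M : TM} {T j : ℕ} (hj : j ≤ T) {c c' : M.Cfg} (h : Sim M T j c c') :
    c.scan = c'.scan := by
  obtain ⟨_, h2, h3, h4⟩ := h
  funext i
  unfold TM.Cfg.scan
  rw [← h2]
  apply h4
  have := h3 i
  omega

theorem Sim.answer {M : TM} {T j : ℕ} (hj : j ≤ T) {c c' : M.Cfg} (h : Sim M T j c c') :
    M.answer c = M.answer c' := by
  unfold TM.answer
  rw [h.scan hj, h.1]

theorem Sim.next {M : TM} {T j : ℕ} (hj : j ≤ T) {c c' : M.Cfg} (h : Sim M T j c c') :
    Sim M T (j + 1) (M.next c) (M.next c') := by
  have hs := h.scan hj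
  obtain ⟨h1, h2, h3, h4⟩ := h
  unfold TM.next
  rw [hs, h1]
  cases M.δ c'.q c'.scan with
  | inl b =>
    refine ⟨h1, h2, fun i => (h3 i).trans (by push_cast; omega), h4⟩
  | inr r =>
    refine ⟨rfl, ?_, ?_, ?_⟩
    · simp only [h2]
    · intro i
      have hi := h3 i
      have hd : (r.2.2 i).shift ≤ 1 := by
        cases r.2.2 i <;> simp [Dir.shift]
      simp only
      push_cast
      omega
    · intro i z hz
      simp only [h2, h4 i z hz]

theorem Sim.iterate {M : TM} {T : ℕ} {c c' : M.Cfg} (h : Sim M T 0 c c') (j : ℕ) (hj : j ≤ T) :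
    Sim M T j (M.next^[j] c) (M.next^[j] c') := by
  induction j with
  | zero => exact h
  | succ j ih =>
    rw [Function.iterate_succ_apply', Function.iterate_succ_apply']
    exact (ih (by omega)).next (by omega)

theorem turing_standard : turing.Standard where
  accept := turing_accept
  inspect := by
    intro γ T c
    filter_upwards [eventually_ge_atTop (c * (T + 1))] with N hN w hw b t ht hb
    refine ⟨Finset.range (T + 1), by rw [Finset.card_range]; exact hN, ?_⟩
    intro w' _ hagree
    refine ⟨t, ?_⟩
    have hsim : Sim γ T 0 (γ.init w) (γ.init w') := by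
      refine ⟨rfl, rfl, fun i => le_refl _, ?_⟩
      intro i z hz
      unfold TM.init
      simp only
      by_cases hcond : i = 0 ∧ 0 ≤ z
      · rw [if_pos hcond, if_pos hcond, hagree z.toNat (Finset.mem_range.2 (by omega))]
      · rw [if_neg hcond, if_neg hcond]
    refine ⟨?_, ?_⟩
    · rw [← (hsim.iterate t ht).answer ht]
      exact hb.1
    · intro s hs
      rw [← (hsim.iterate s (by omega)).answer (by omega)]
      exact hb.2 s hs

/-- The index of the input cell read in the step from the configuration `c` (or `0`). -/
def probe (P : List Instr) (c : RAMCfg) : ℕ :=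
  match P[c.pc]? with
  | some (.read _ j) => c.R j
  | _ => 0

theorem ramNext_congr (P : List Instr) (w w' : List Sym) (c : RAMCfg) (hlen : w'.length = w.length)
    (h : w'[probe P c]? = w[probe P c]?) : ramNext P w' c = ramNext P w c := by
  unfold ramNext
  unfold probe at h
  split <;> simp_all

theorem ram_standard : ram.Standard where
  accept := by
    refine ⟨⟨[Instr.halt true]⟩, 0, fun w => ⟨0, le_refl 0, rfl, ?_⟩⟩
    intro s hs
    exact absurd hs (Nat.not_lt_zero s)
  inspect := by
    intro γ T c
    filter_upwards [eventually_ge_atTop (c * T)] with N hN w hw b t ht hb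
    let S : Finset ℕ := (Finset.range T).image
      fun j => probe γ.down ((ramNext γ.down w)^[j] ⟨0, fun _ => 0⟩)
    have hS : S.card ≤ T := Finset.card_image_le.trans (by rw [Finset.card_range])
    refine ⟨S, (Nat.mul_le_mul_left c hS).trans hN, ?_⟩
    intro w' hw' hagree
    have hiter : ∀ j ≤ T, (ramNext γ.down w')^[j] ⟨0, fun _ => 0⟩ =
        (ramNext γ.down w)^[j] ⟨0, fun _ => 0⟩ := by
      intro j
      induction j with
      | zero => intro _; rfl
      | succ j ih =>
        intro hj
        rw [Function.iterate_succ_apply', Function.iterate_succ_apply', ih (by omega)]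
        refine ramNext_congr _ _ _ _ (hw'.trans hw.symm) (hagree _ ?_)
        exact Finset.mem_image.2 ⟨j, Finset.mem_range.2 (by omega), rfl⟩
    refine ⟨t, ?_, ?_⟩
    · rw [hiter t ht]
      exact hb.1
    · intro s hs
      rw [hiter s (by omega)]
      exact hb.2 s hs


/-! ### The class `J` has an isomorphism testing algorithm (multitape Turing machine) -/

/-- States of the machine: the phase (size of `A`, table of `A`, size of `B`, table of `B`), whether
the relation of `A`, respectively of `B`, has been seen to hold somewhere. -/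
structure St where
  ph : Fin 4
  a : Bool
  b : Bool

/-- The finite control of the machine on reading one more cell. -/
def St.upd (s : St) : Sym → St
  | .zero => s
  | .one => if s.ph = 1 then { s with a := true } else if s.ph = 3 then { s with b := true } else s
  | .sep => { s with ph := s.ph + 1 }

theorem finite_sym : Finite Sym := by
  refine Finite.of_surjective (fun i : Fin 3 => ![Sym.zero, Sym.one, Sym.sep] i) ?_
  intro s
  cases s
  · exact ⟨0, rfl⟩
  · exact ⟨1, rfl⟩
  · exact ⟨2, rfl⟩

/-- A one-tape machine testing isomorphism for `J`. It moves to the right over the input and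
halts at the last separator. -/
def scanner : TM where
  k := 0
  Γ := Option Sym
  finΓ := by
    have := finite_sym
    infer_instance
  Q := St
  finQ := by
    refine Finite.of_injective (fun s : St => (s.ph, s.a, s.b)) ?_
    rintro ⟨p, a, b⟩ ⟨p', a', b'⟩ h
    simpa using h
  letter := Function.Embedding.refl _
  start := ⟨0, false, false⟩
  δ q r := match r 0 with
    | none => .inl false
    | some .sep => if q.ph = 3 then .inl (q.a == q.b)
        else .inr (q.upd Sym.sep, r, fun _ => Dir.right)
    | some .zero => .inr (q.upd Sym.zero, r, fun _ => Dir.right)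
    | some .one => .inr (q.upd Sym.one, r, fun _ => Dir.right)

/-- Reading the word `u` from the state `q` does not lead the machine to halt. -/
def good : St → List Sym → Prop
  | _, [] => True
  | q, x :: u => ¬ (q.ph = 3 ∧ x = Sym.sep) ∧ good (q.upd x) u

theorem good_append (q : St) (u v : List Sym) :
    good q (u ++ v) ↔ good q u ∧ good (u.foldl St.upd q) v := by
  induction u generalizing q with
  | nil => simp [good]
  | cons x u ih => simp [good, ih, and_assoc]

/-- The content of the input tape. -/
def tapeOf (w : List Sym) (z : ℤ) : Option Sym := if 0 ≤ z then w[z.toNat]? else none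

theorem tapeOf_natCast (w : List Sym) (i : ℕ) : tapeOf w (i : ℤ) = w[i]? := by
  unfold tapeOf
  rw [if_pos (by omega)]
  rfl

/-- The configuration of the machine on the input `w` in state `q` at the position `i`. -/
def cfg (w : List Sym) (q : St) (i : ℕ) : scanner.Cfg where
  q := q
  head := fun _ => i
  tape := fun _ => tapeOf w

theorem scan_cfg (w : List Sym) (q : St) (i : ℕ) (x : Sym) (hx : w[i]? = some x) :
    (cfg w q i).scan = fun _ => some x := by
  funext j
  exact (tapeOf_natCast w i).trans hx

theorem scanner_step (w : List Sym) (q : St) (i : ℕ) (x : Sym) (hx : w[i]? = some x)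
    (h : ¬ (q.ph = 3 ∧ x = Sym.sep)) :
    scanner.next (cfg w q i) = cfg w (q.upd x) (i + 1) ∧ scanner.answer (cfg w q i) = none := by
  have hscan : (cfg w q i).scan = fun _ => some x := scan_cfg w q i x hx
  have hδ : scanner.δ q (fun _ => some x) = .inr (q.upd x, (fun _ => some x), fun _ => Dir.right) := by
    cases x
    · rfl
    · rfl
    · have : ¬ q.ph = 3 := fun h' => h ⟨h', rfl⟩
      simp [scanner, this]
  constructor
  · unfold TM.next
    rw [hscan]
    have : scanner.δ (cfg w q i).q (fun _ => some x) = _ := hδ
    rw [this]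
    have htape : (fun (j : Fin (scanner.k + 1)) (z : ℤ) =>
        if z = (cfg w q i).head j then (some x : Option Sym) else (cfg w q i).tape j z) =
        fun _ => tapeOf w := by
      funext j z
      by_cases hz : z = i
      · refine (if_pos hz).trans ?_
        rw [hz]
        exact ((tapeOf_natCast w i).trans hx).symm
      · exact (if_neg hz).trans rfl
    have hhead : (fun j : Fin (scanner.k + 1) => (cfg w q i).head j + Dir.right.shift) =
        fun _ => ((i + 1 : ℕ) : ℤ) := by
      funext j
      push_cast
      rfl
    exact TM.Cfg.mk.injEq _ _ _ _ _ _ |>.mpr ⟨rfl, hhead, htape⟩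
  · unfold TM.answer
    rw [hscan]
    have : scanner.δ (cfg w q i).q (fun _ => some x) = _ := hδ
    rw [this]

theorem scanner_run (w u : List Sym) (q : St) (i : ℕ) (hu : ∀ j < u.length, w[i + j]? = u[j]?)
    (h : good q u) :
    scanner.next^[u.length] (cfg w q i) = cfg w (u.foldl St.upd q) (i + u.length) ∧
    ∀ s < u.length, scanner.answer (scanner.next^[s] (cfg w q i)) = none := by
  induction u generalizing q i with
  | nil => exact ⟨rfl, fun s hs => absurd hs (Nat.not_lt_zero s)⟩
  | cons x u ih =>
    obtain ⟨h1, h2⟩ := h
    have hx : w[i]? = some x := by simpa using hu 0 (by simp)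
    obtain ⟨hs1, hs2⟩ := scanner_step w q i x hx h1
    obtain ⟨ih1, ih2⟩ := ih (q.upd x) (i + 1) (by
      intro j hj
      have := hu (j + 1) (by simpa using hj)
      rw [List.getElem?_cons_succ] at this
      rw [← this]
      congr 1
      ring) h2
    constructor
    · rw [List.length_cons, Function.iterate_succ_apply, hs1, ih1, List.foldl_cons]
      congr 1
      ring
    · intro s hs
      cases s with
      | zero => exact hs2
      | succ s =>
        rw [Function.iterate_succ_apply, hs1]
        exact ih2 s (by simpa using hs)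

open Classical in
/-- The table of the relation. -/
noncomputable def tab {n : ℕ} (A : Str sigP n) : List Sym :=
  List.ofFn (fun k : Fin (n ^ 1) =>
    if pred A (finFunctionFinEquiv.symm k 0) then Sym.one else Sym.zero)

theorem sep_not_mem_tab {n : ℕ} (A : Str sigP n) : Sym.sep ∉ tab A := by
  classical
  unfold tab
  rw [List.mem_ofFn]
  rintro ⟨k, hk⟩
  split_ifs at hk

theorem one_mem_tab {n : ℕ} (A : Str sigP n) : Sym.one ∈ tab A ↔ ∃ x, pred A x := by
  classical
  unfold tab
  rw [List.mem_ofFn]
  constructor
  · rintro ⟨k, hk⟩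
    split_ifs at hk with h
    exact ⟨_, h⟩
  · rintro ⟨x, hx⟩
    refine ⟨finFunctionFinEquiv (fun _ => x), ?_⟩
    simp [hx]

theorem good_of_sep_not_mem (q : St) (u : List Sym) (h : Sym.sep ∉ u) : good q u := by
  induction u generalizing q with
  | nil => trivial
  | cons x u ih =>
    simp only [List.mem_cons, not_or] at h
    exact ⟨fun h' => h.1 h'.2.symm, ih _ h.2⟩

theorem foldl_zero (a b : Bool) (u : List Sym) (h : Sym.sep ∉ u) :
    u.foldl St.upd ⟨0, a, b⟩ = ⟨0, a, b⟩ := by
  induction u with
  | nil => rfl
  | cons x u ih =>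
    simp only [List.mem_cons, not_or] at h
    rw [List.foldl_cons]
    cases x with
    | sep => exact absurd rfl h.1
    | zero => exact ih h.2
    | one => exact ih h.2

theorem foldl_two (a b : Bool) (u : List Sym) (h : Sym.sep ∉ u) :
    u.foldl St.upd ⟨2, a, b⟩ = ⟨2, a, b⟩ := by
  induction u with
  | nil => rfl
  | cons x u ih =>
    simp only [List.mem_cons, not_or] at h
    rw [List.foldl_cons]
    cases x with
    | sep => exact absurd rfl h.1
    | zero => exact ih h.2
    | one => exact ih h.2

open Classical in
theorem foldl_one (a b : Bool) (u : List Sym) (h : Sym.sep ∉ u) :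
    u.foldl St.upd ⟨1, a, b⟩ = ⟨1, a || decide (Sym.one ∈ u), b⟩ := by
  induction u generalizing a with
  | nil => simp
  | cons x u ih =>
    simp only [List.mem_cons, not_or] at h
    rw [List.foldl_cons]
    cases x with
    | sep => exact absurd rfl h.1
    | zero =>
      rw [show St.upd ⟨1, a, b⟩ Sym.zero = ⟨1, a, b⟩ from rfl, ih a h.2]
      have : (Sym.one ∈ Sym.zero :: u) ↔ Sym.one ∈ u := by simp
      simp only [this]
    | one =>
      rw [show St.upd ⟨1, a, b⟩ Sym.one = ⟨1, true, b⟩ from rfl, ih true h.2]
      simp

open Classical in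
theorem foldl_three (a b : Bool) (u : List Sym) (h : Sym.sep ∉ u) :
    u.foldl St.upd ⟨3, a, b⟩ = ⟨3, a, b || decide (Sym.one ∈ u)⟩ := by
  induction u generalizing b with
  | nil => simp
  | cons x u ih =>
    simp only [List.mem_cons, not_or] at h
    rw [List.foldl_cons]
    cases x with
    | sep => exact absurd rfl h.1
    | zero =>
      rw [show St.upd ⟨3, a, b⟩ Sym.zero = ⟨3, a, b⟩ from rfl, ih b h.2]
      have : (Sym.one ∈ Sym.zero :: u) ↔ Sym.one ∈ u := by simp
      simp only [this]
    | one =>
      rw [show St.upd ⟨3, a, b⟩ Sym.one = ⟨3, a, true⟩ from rfl, ih true h.2]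
      simp

theorem pairCode_eq {n : ℕ} (A B : Str sigP n) :
    pairCode A B = (List.replicate n Sym.one ++ [Sym.sep] ++ tab A ++ [Sym.sep] ++
      List.replicate n Sym.one ++ [Sym.sep] ++ tab B) ++ [Sym.sep] := by
  unfold pairCode
  rw [code_eq, code_eq]
  simp only [tab, List.append_assoc]

/-- The machine `scanner` is an isomorphism testing algorithm for `J` running in linear time. So
the failure of the assertion of Q1 is not due to a lack of algorithms for `J`. -/
theorem J_scanner : IsTest turing J scanner ∧ ∀ n, maxSteps turing J scanner n ≤ 4 * n + 3 := by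
  classical
  have key : ∀ (n : ℕ) (A B : Str sigP n), turing.Halts scanner (pairCode A B)
      (decide (∃ x, pred A x) == decide (∃ x, pred B x)) (4 * n + 3) := by
    intro n A B
    have hrep : Sym.sep ∉ List.replicate n Sym.one := by
      intro h
      exact absurd (List.eq_of_mem_replicate h) (by simp)
    set u := List.replicate n Sym.one ++ [Sym.sep] ++ tab A ++ [Sym.sep] ++
      List.replicate n Sym.one ++ [Sym.sep] ++ tab B with hu
    have hw : pairCode A B = u ++ [Sym.sep] := pairCode_eq A B
    have hlen : u.length = 4 * n + 3 := by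
      have := length_pairCode A B
      rw [hw, List.length_append, List.length_singleton] at this
      omega
    have hf1 := foldl_zero false false _ hrep
    have hf2 := foldl_one false false _ (sep_not_mem_tab A)
    have hf3 := foldl_two (false || decide (Sym.one ∈ tab A)) false _ hrep
    have hf4 := foldl_three (false || decide (Sym.one ∈ tab A)) false _ (sep_not_mem_tab B)
    have hs1 : St.upd ⟨0, false, false⟩ Sym.sep = ⟨1, false, false⟩ := rfl
    have hs2 : St.upd ⟨1, (false || decide (Sym.one ∈ tab A)), false⟩ Sym.sep =
      ⟨2, (false || decide (Sym.one ∈ tab A)), false⟩ := rfl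
    have hs3 : St.upd ⟨2, (false || decide (Sym.one ∈ tab A)), false⟩ Sym.sep =
      ⟨3, (false || decide (Sym.one ∈ tab A)), false⟩ := rfl
    have hfold : u.foldl St.upd ⟨0, false, false⟩ =
        ⟨3, decide (∃ x, pred A x), decide (∃ x, pred B x)⟩ := by
      rw [hu]
      simp only [List.foldl_append, List.foldl_cons, List.foldl_nil]
      rw [hf1, hs1, hf2, hs2, hf3, hs3, hf4]
      simp only [Bool.false_or, one_mem_tab]
    have hgood : good ⟨0, false, false⟩ u := by
      rw [hu]
      simp only [good_append, List.foldl_append, List.foldl_cons, List.foldl_nil, good]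
      rw [hf1, hs1, hf2, hs2, hf3, hs3]
      refine ⟨⟨⟨⟨⟨⟨good_of_sep_not_mem _ _ hrep, ?_, trivial⟩,
        good_of_sep_not_mem _ _ (sep_not_mem_tab A)⟩, ?_, trivial⟩,
        good_of_sep_not_mem _ _ hrep⟩, ?_, trivial⟩, good_of_sep_not_mem _ _ (sep_not_mem_tab B)⟩
      · exact fun h => absurd h.1 (show ¬ (0 : Fin 4) = 3 by decide)
      · exact fun h => absurd h.1 (show ¬ (1 : Fin 4) = 3 by decide)
      · exact fun h => absurd h.1 (show ¬ (2 : Fin 4) = 3 by decide)
    have hinit : scanner.init (pairCode A B) = cfg (pairCode A B) ⟨0, false, false⟩ 0 := by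
      refine TM.Cfg.mk.injEq _ _ _ _ _ _ |>.mpr ⟨rfl, rfl, ?_⟩
      funext j z
      have hj : j = 0 := Subsingleton.elim (α := Fin 1) _ _
      subst hj
      by_cases hz : 0 ≤ z
      · rw [if_pos ⟨rfl, hz⟩]
        unfold tapeOf
        rw [if_pos hz]
        rfl
      · rw [if_neg (fun h => hz h.2)]
        unfold tapeOf
        rw [if_neg hz]
        rfl
    obtain ⟨hr1, hr2⟩ := scanner_run (pairCode A B) u ⟨0, false, false⟩ 0 (by
      intro j hj
      rw [hw, zero_add, List.getElem?_append_left hj]) hgood
    rw [hlen] at hr1 hr2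
    refine ⟨?_, ?_⟩
    · rw [hinit, hr1, hfold]
      have hx : (pairCode A B)[4 * n + 3]? = some Sym.sep := by
        rw [hw, List.getElem?_append_right (by omega), hlen]
        simp
      have hscan := scan_cfg (pairCode A B) ⟨3, decide (∃ x, pred A x), decide (∃ x, pred B x)⟩
          (0 + (4 * n + 3)) Sym.sep (by rw [zero_add]; exact hx)
      unfold TM.answer
      rw [hscan]
      rfl
    · rw [hinit]
      exact hr2
  constructor
  · intro n A B hA hB
    refine ⟨_, _, key n A B, ?_⟩
    refine Iff.trans ?_ (iso_iff_of_mem A B hA hB).symm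
    by_cases h1 : ∃ x, pred A x <;> by_cases h2 : ∃ x, pred B x <;> simp [h1, h2]
  · intro n
    refine csSup_le' ?_
    rintro t ⟨A, B, _, _, b, h⟩
    exact (turing.det _ _ _ _ _ _ h (key n A B)).2.le

/-- **Q1 is false, unconditionally.** The assertion of Q1 fails for deterministic multitape Turing
machines, for unit cost random access machines, and for every model of computation in which some
algorithm accepts all inputs in bounded time and only `o(N)` input cells are inspected in a bounded
number of steps. -/
theorem result : ¬ Assertion turing ∧ ¬ Assertion ram ∧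
    ∀ M : Model, M.Standard → ¬ Assertion M :=
  ⟨not_assertion _ turing_standard, not_assertion _ ram_standard, not_assertion⟩

end Pool.Agent.Results.MP_28ce77_lc.Disproof
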