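import Pool.Agent.H82.RA.ArUpper
import Pool.Agent.H82.RA.Lower

set_option autoImplicit false

namespace Pool.Agent.Results.MP_28ce77_lc.RandomAccess

open Filter Pool.Agent.H82.RA

/-- The assertion of Q1 for the model of computation `M`, restricted to those classes `K` which
have at least `g n` isomorphism types of `n`-element members for all large `n`. -/
def AssertionAbove (M : Model) (g : ℕ → ℕ) : Prop :=
  ∀ (J K : FOClass) (q : Polynomial ℕ), (∀ᶠ n in atTop, g n ≤ K.types n) →
    (∀ n, J.types n ≤ q.eval (K.types n)) → Conclusion M J K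

/-- **Q1 for random access machines: a threshold for the number of isomorphism types of `K`.**
Every symbol is given by its table, the input is an array of numbers, and `κ` is the cost of a
step; unit cost and logarithmic cost are admissible.

* Below: for every `k`, Q1 restricted to classes `K` with `f_K(n) ≥ 2 ^ ((log₂ n) ^ k)` for all
  large `n` is false, even for a single class `J` with `f_J(n) = n` and a test in time
  `n (log n) ^ C`: every test for `J` needs time at least `n - 1`, but `K` has a test which works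
  in time `C (log n) ^ C`.
* Above: if `J` has a polynomial time test and `f_K(n) ≥ 2 ^ (n ^ (1 / d))` for some `d` and all
  large `n`, then the conclusion of Q1 holds for `J` and `K`.
* For all classes `L` and all tests `α`, `f_L(n) ≤ (n + 2) ^ m_L(α, n)`. -/
theorem result :
    Admissible unitCost ∧ Admissible logCost ∧
    (∃ J : FOClass, (∀ n, J.types n = n) ∧
      (∀ κ : CostFn, Admissible κ →
        (∃ β : (ram κ).Alg, IsTest (ram κ) J β ∧
          ∃ C : ℕ, ∀ n, 2 ≤ n → maxTime (ram κ) J β n ≤ C * n * Nat.log 2 n ^ C) ∧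
        (∀ β : (ram κ).Alg, IsTest (ram κ) J β → ∀ n, n ≤ maxTime (ram κ) J β n + 1)) ∧
      ∀ k : ℕ, ∃ K : FOClass, (∀ n, J.types n ≤ K.types n) ∧
        (∀ᶠ n in atTop, 2 ^ (Nat.log 2 n ^ k) ≤ K.types n) ∧
        ∀ κ : CostFn, Admissible κ →
          (∃ α : (ram κ).Alg, IsTest (ram κ) K α ∧
            ∃ C : ℕ, ∀ n, 2 ≤ n → maxTime (ram κ) K α n ≤ C * Nat.log 2 n ^ C) ∧
          ¬ Conclusion (ram κ) J K) ∧
    ∀ κ : CostFn, Admissible κ →
      (∀ k : ℕ, ¬ AssertionAbove (ram κ) fun n => 2 ^ (Nat.log 2 n ^ k)) ∧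
      (∀ J K : FOClass,
        (∃ β : (ram κ).Alg, IsTest (ram κ) J β ∧
          ∃ C : ℕ, ∀ᶠ n in atTop, maxTime (ram κ) J β n ≤ C * n ^ C) →
        (∃ d : ℕ, ∀ᶠ n in atTop, n ≤ Nat.log 2 (K.types n) ^ d) →
        Conclusion (ram κ) J K) ∧
      (∀ (L : FOClass) (α : (ram κ).Alg), IsTest (ram κ) L α →
        ∀ n, L.types n ≤ (n + 2) ^ maxTime (ram κ) L α n) := by
  have hmany : ∀ k : ℕ, ∀ᶠ n in atTop, 2 ^ (Nat.log 2 n ^ k) ≤ (Ar (k + 1)).types n := by
    intro k
    filter_upwards [Ar_many (k + 1), eventually_ge_atTop 2] with n hn h2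
    refine le_trans (Nat.pow_le_pow_right (by norm_num) ?_) hn
    exact Nat.pow_le_pow_right (log_pos h2) (Nat.le_succ k)
  refine ⟨admissible_unit, admissible_log, ⟨J, J_types, fun κ hκ =>
    ⟨⟨jProg, J_test hκ, J_upper hκ⟩, fun β hβ n => J_lower hκ.pos β hβ n⟩, fun k =>
      ⟨Ar (k + 1), J_le_A (Nat.succ_ne_zero k), hmany k, fun κ hκ =>
        ⟨⟨aProg, A_test hκ (k + 1), A_upper hκ (k + 1)⟩, not_conclusion_A hκ (k + 1)⟩⟩⟩,
    fun κ hκ => ⟨fun k h => ?_, fun J K hJ hK => conclusion_of_many hκ.pos J K hJ hK,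
      fun L α hα n => types_le hκ.pos L α hα n⟩⟩
  refine not_conclusion_A hκ (k + 1) (h J (Ar (k + 1)) Polynomial.X (hmany k) fun n => ?_)
  rw [Polynomial.eval_X]
  exact J_le_A (Nat.succ_ne_zero k) n

end Pool.Agent.Results.MP_28ce77_lc.RandomAccess
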