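import Pool.Agent.H82.TC.Equiv

set_option autoImplicit false

namespace Pool.Agent.Results.MP_28ce77_lc.TuringCase

open Filter Pool.Agent.H82.TC

/-- The assertion of Q1 for multitape Turing machines, restricted to those classes `K` which have
at least `g n` isomorphism types of `n`-element members for all large `n`. -/
def AssertionAbove (g : ℕ → ℕ) : Prop :=
  ∀ (J K : FOClass) (q : Polynomial ℕ), (∀ n, J.types n ≤ q.eval (K.types n)) →
    (∀ᶠ n in atTop, g n ≤ K.types n) → Conclusion turing J K

/-- **The exact range of Q1 for multitape Turing machines.**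

* Let `g` be any function with `1 ≤ g(n) ≤ 2 ^ n ^ s` for all large `n` and `g(n) ≥ 2` for
  infinitely many `n`. Then Q1 restricted to the `K` with `f_K(n) ≥ g(n)` for all large `n` is true
  if and only if every class has a polynomial time isomorphism test; and a single class `J` has a
  polynomial time isomorphism test if and only if the conclusion of Q1 holds for `J` and every
  such `K` with `f_J ≤ q (f_K)` for some polynomial `q`.
* If `J` has a polynomial time test (and `f_K(n) ≥ 1` whenever `f_J(n) ≥ 1`, for large `n`), then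
  the conclusion of Q1 holds for `J` and `K` if and only if `f_J(n) ≤ 1` for all large `n` or
  `f_K(n) ≥ 2` for infinitely many `n`. -/
theorem result :
    (∀ (g : ℕ → ℕ) (s : ℕ), (∃ᶠ n in atTop, 2 ≤ g n) →
      (∀ᶠ n in atTop, 1 ≤ g n ∧ g n ≤ 2 ^ n ^ s) →
      (AssertionAbove g ↔ ∀ L : FOClass, PolyTest L) ∧
      (∀ J : FOClass, PolyTest J ↔ ∀ (K : FOClass) (q : Polynomial ℕ),
        (∀ n, J.types n ≤ q.eval (K.types n)) → (∀ᶠ n in atTop, g n ≤ K.types n) →
          Conclusion turing J K)) ∧
    (∀ J K : FOClass, PolyTest J → (∀ᶠ n in atTop, J.types n ≠ 0 → K.types n ≠ 0) →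
      (Conclusion turing J K ↔
        (∀ᶠ n in atTop, J.types n ≤ 1) ∨ ∃ᶠ n in atTop, 2 ≤ K.types n)) := by
  refine ⟨fun g s hg hs => ⟨⟨fun h L => (polyTest_iff L hg hs).2 fun K q => h L K q,
    fun h J K q hq hK => (polyTest_iff J hg hs).1 (h J) K q hq hK⟩,
    fun J => polyTest_iff J hg hs⟩, fun J K hJ hJK => conclusion_iff hJ hJK⟩

end Pool.Agent.Results.MP_28ce77_lc.TuringCase
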